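import Pool.Agent.Helper23.EB.Lad
import Pool.Agent.Helper23.PI.TL
import Pool.Agent.Helper96.Fc.Root

/-!
# Transfer of a forced ladder system to a countable transitive model
-/

open Cardinal Ordinal Set Pool.Agent.Helper96.Fc Pool.Agent.Helper23.PI

set_option linter.unusedSectionVars false

namespace Pool.Agent.Helper23.EB

open ZFSet (pair)

/-- the regular cardinal `(2 ^ ω)⁺` as a type -/
abbrev KE : Type := (Order.succ 𝔠 : Cardinal.{0}).ord.ToType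

theorem reg_succ : (Order.succ 𝔠 : Cardinal.{0}).IsRegular := isRegular_succ aleph0_le_continuum

/-- the ordinal of an element -/
noncomputable def odk (x : KE) : Ordinal.{0} := (ToType.toOrd x).1

theorem odk_lt (x : KE) : odk x < (Order.succ 𝔠 : Cardinal.{0}).ord := (ToType.toOrd x).2

theorem odk_lt_odk {x y : KE} : odk x < odk y ↔ x < y := by
  unfold odk
  rw [Subtype.coe_lt_coe]
  exact ToType.mk.symm.lt_iff_lt

theorem odk_inj {x y : KE} (h : odk x = odk y) : x = y := by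
  unfold odk at h
  exact ToType.mk.symm.injective (Subtype.ext h)

theorem exists_odk {a : Ordinal.{0}} (h : a < (Order.succ 𝔠 : Cardinal.{0}).ord) :
    ∃ x, odk x = a := by
  refine ⟨ToType.mk ⟨a, h⟩, ?_⟩
  simp [odk]

variable {P : Type} [PartialOrder P] [OrderTop P]

/-- name of an element -/
noncomputable def kN (P : Type) [PartialOrder P] [OrderTop P] (x : KE) : Nm P := ordN P (odk x)

/-- name of a natural number -/
noncomputable def natN (P : Type) [PartialOrder P] [OrderTop P] (n : ℕ) : Nm P :=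
  ordN P (n : Ordinal.{0})

theorem kN_inj {x y : KE} {p : P} (h : FEq (kN P x) (kN P y) p) : x = y := odk_inj (ordN_inj h)

theorem kN_inj' {x y : KE} (h : kN P x = kN P y) : x = y := odk_inj (ordN_inj' h)

theorem natN_inj' {m n : ℕ} (h : natN P m = natN P n) : m = n :=
  Nat.cast_injective (ordN_inj' h)

/-- name of the set of the indices of the ladders -/
noncomputable def EN (HE : KE → Set P) : Nm P :=
  Nm.mk {x : KE × P // x.2 ∈ HE x.1} (fun x => kN P x.1.1) (fun x => x.1.2)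

/-- name of the ladder system -/
noncomputable def LN (HL : KE → KE → Set P) : Nm P :=
  Nm.mk {x : (KE × KE) × P // x.2 ∈ HL x.1.1 x.1.2}
    (fun x => pairN (kN P x.1.1.1) (kN P x.1.1.2)) (fun x => x.1.2)

/-- name of the system of the disjoint tails -/
noncomputable def TN (HT : KE → KE → KE → Set P) : Nm P :=
  Nm.mk {x : (KE × KE × KE) × P // x.2 ∈ HT x.1.1 x.1.2.1 x.1.2.2 ∧ x.1.2.1 < x.1.1}
    (fun x => pairN (kN P x.1.1.1) (pairN (kN P x.1.1.2.1) (kN P x.1.1.2.2))) (fun x => x.1.2)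

/-- name of a relation between natural numbers -/
noncomputable def qN (P : Type) [PartialOrder P] [OrderTop P] : Nm P :=
  Nm.mk {x : ℕ × ℕ × ℕ // 1 < (x.2.2 : ℝ) * (rt x.1 - rt x.2.1)}
    (fun x => pairN (natN P x.1.1) (pairN (natN P x.1.2.1) (natN P x.1.2.2))) (fun _ => ⊤)

/-- name of the identity map of a set -/
noncomputable def diagN (x : Nm P) : Nm P :=
  Nm.mk x.Ix (fun i => pairN (x.fn i) (x.fn i)) x.cd

/-- `α` bounds all possible values of `g` on ground sets of natural numbers -/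
def Bnd (g : Nm P) (p : P) (α : KE) : Prop :=
  ∀ (S : Set ℕ) (ξ : KE), ∀ q ≤ p, FMem (pairN (cN (natN P) S) (kN P ξ)) g q → ξ < α

/-- the forced relation -/
def Psi (HE : KE → Set P) (ρ : Nm P) (p : P) (ξ : KE) (m : ℕ) (δ : KE) : Prop :=
  p ∈ HE δ ∧ FMem (pairN (kN P ξ) (pairN (natN P m) (kN P δ))) ρ p

/-- the operations -/
noncomputable def OTr (HE : KE → Set P) (HL : KE → KE → Set P) (HT : KE → KE → KE → Set P) :
    ℕ × ℕ → List (Obj P) → Obj P → Prop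
  | (0, k), L, z => OI k L z
  | (1, 0), L, z => L = [] ∧ z = Sum.inl (ordN P (Order.succ 𝔠 : Cardinal.{0}).ord)
  | (1, 1), L, z => L = [] ∧ z = Sum.inl (EN HE)
  | (1, 2), L, z => L = [] ∧ z = Sum.inl (LN HL)
  | (1, 3), L, z => L = [] ∧ z = Sum.inl (TN HT)
  | (1, 4), L, z => L = [] ∧ z = Sum.inl (qN P)
  | (2, 0), L, z => ∃ x : Nm P, L = [Sum.inl x] ∧ z = Sum.inl (diagN x)
  | (2, 1), L, z => ∃ (g : Nm P) (p : P) (h : ∃ α, Bnd g p α), L = [Sum.inl g, Sum.inr p] ∧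
      z = Sum.inl (kN P h.choose)
  | _, _, _ => False

theorem OTr_fun (HE : KE → Set P) (HL : KE → KE → Set P) (HT : KE → KE → KE → Set P) :
    ∀ k L y z, OTr HE HL HT k L y → OTr HE HL HT k L z → y = z := by
  intro k L y z hy hz
  match k, hy, hz with
  | (0, k), hy, hz => exact OI_fun k L y z hy hz
  | (1, 0), hy, hz => rw [hy.2, hz.2]
  | (1, 1), hy, hz => rw [hy.2, hz.2]
  | (1, 2), hy, hz => rw [hy.2, hz.2]
  | (1, 3), hy, hz => rw [hy.2, hz.2]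
  | (1, 4), hy, hz => rw [hy.2, hz.2]
  | (1, n + 5), hy, hz => exact hy.elim
  | (2, 0), hy, hz =>
    obtain ⟨a, rfl, rfl⟩ := hy
    obtain ⟨c, h, rfl⟩ := hz
    simp only [List.cons.injEq, Sum.inl.injEq, and_true] at h
    rw [h]
  | (2, 1), hy, hz =>
    obtain ⟨g, p, h, rfl, rfl⟩ := hy
    obtain ⟨g', p', h', he, rfl⟩ := hz
    simp only [List.cons.injEq, Sum.inl.injEq, Sum.inr.injEq, and_true] at he
    obtain ⟨rfl, rfl⟩ := he
    rfl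
  | (2, n + 2), hy, hz => exact hy.elim
  | (n + 3, _), hy, hz => exact hy.elim

/-- the relations -/
def RTr (HE : KE → Set P) (HL : KE → KE → Set P) (HT : KE → KE → KE → Set P) :
    ℕ × ℕ → P → List (Obj P) → Prop
  | (0, k), p, l => RTL (natN P) k p l
  | (1, 0), p, l => ∃ (δ ζ : KE) (F : Set KE),
      l = [Sum.inl (kN P δ), Sum.inl (kN P δ), Sum.inl (kN P ζ)] ∧ F.Finite ∧
      ∀ ξ < ζ, ∀ q ≤ p, q ∈ HL δ ξ → ξ ∈ F
  | (1, 1), p, l => ∃ (α δ : KE) (F : Set KE),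
      l = [Sum.inl (kN P δ), Sum.inl (kN P α), Sum.inl (kN P δ)] ∧ F.Finite ∧
      ∀ ξ, ξ ∉ F → ∀ q ≤ p, q ∈ HL δ ξ → q ∈ HT α δ ξ
  | (1, 2), p, l => ∃ (ξ : KE) (m : ℕ) (ρ : Nm P),
      l = [Sum.inl (pairN (kN P ξ) (natN P m)), Sum.inl ρ] ∧
      ∀ q ≤ p, ∀ β, ∃ q' ≤ q, ∃ δ, β < δ ∧ Psi HE ρ q' ξ m δ
  | (1, 3), p, l => ∃ (ξ : KE) (m : ℕ) (β : KE) (ρ : Nm P) (δ : KE),
      l = [Sum.inl (kN P δ), Sum.inl (kN P ξ), Sum.inl (natN P m), Sum.inl (kN P β), Sum.inl ρ] ∧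
      β < δ ∧ Psi HE ρ p ξ m δ
  | (1, 4), p, l => ∃ (δ : KE) (ρ : Nm P), l = [Sum.inl (kN P δ), Sum.inl ρ] ∧ p ∈ HE δ ∧
      ∀ q ≤ p, ∀ (m : ℕ) (F : Set KE), F.Finite → ∃ ξ, ξ ∉ F ∧ ∃ q' ≤ q, q' ∈ HL δ ξ ∧
        ¬ Psi HE ρ q' ξ m δ
  | (1, 5), p, l => ∃ (ξ δ : KE) (m : ℕ) (ρ : Nm P) (F : List KE),
      l = Sum.inl (kN P ξ) :: Sum.inl (kN P δ) :: Sum.inl (natN P m) :: Sum.inl ρ ::
        F.map (fun x => Sum.inl (kN P x)) ∧ ξ ∉ F ∧ p ∈ HL δ ξ ∧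
        ∀ s ≤ p, ¬ FMem (pairN (kN P ξ) (pairN (natN P m) (kN P δ))) ρ s
  | _, _, _ => False

section

variable {X : Set (Obj P)} {G : Set P}

theorem mem_kap (h : IsFilt X G) {z : ZFSet.{0}} :
    z ∈ val X G (ordN P (Order.succ 𝔠 : Cardinal.{0}).ord) ↔
      ∃ ξ : KE, (Sum.inl (kN P ξ) : Obj P) ∈ X ∧ val X G (kN P ξ) = z := by
  rw [val_ordN_mem h]
  constructor
  · rintro ⟨b, hb, h1, h2⟩
    obtain ⟨ξ, rfl⟩ := exists_odk hb
    exact ⟨ξ, h1, h2⟩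
  · rintro ⟨ξ, h1, h2⟩
    exact ⟨odk ξ, odk_lt ξ, h1, h2⟩

theorem vk_inj (h : Basic X G) {x y : KE} (hx : (Sum.inl (kN P x) : Obj P) ∈ X)
    (hy : (Sum.inl (kN P y) : Obj P) ∈ X) (he : val X G (kN P x) = val X G (kN P y)) : x = y :=
  odk_inj (val_ordN_inj h hx hy he)

theorem vk_mem (h : Basic X G) {x y : KE} (hx : (Sum.inl (kN P x) : Obj P) ∈ X)
    (hy : (Sum.inl (kN P y) : Obj P) ∈ X) :
    val X G (kN P x) ∈ val X G (kN P y) ↔ x < y := by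
  rw [kN, kN, val_ordN_mem_iff h hx hy, odk_lt_odk]

/-- members of a member of `κ` -/
theorem mem_vk (h : IsFilt X G) {x : KE} {z : ZFSet.{0}} (hz : z ∈ val X G (kN P x)) :
    ∃ ξ : KE, ξ < x ∧ (Sum.inl (kN P ξ) : Obj P) ∈ X ∧ val X G (kN P ξ) = z := by
  obtain ⟨b, hb, h1, h2⟩ := (val_ordN_mem h).1 hz
  obtain ⟨ξ, rfl⟩ := exists_odk (hb.trans (odk_lt x))
  exact ⟨ξ, odk_lt_odk.1 hb, h1, h2⟩

theorem mem_EN {HE : KE → Set P} {z : ZFSet.{0}} : z ∈ val X G (EN HE) ↔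
    ∃ δ : KE, (∃ p ∈ G, p ∈ HE δ) ∧ (Sum.inl (kN P δ) : Obj P) ∈ X ∧ val X G (kN P δ) = z := by
  rw [mem_val]
  constructor
  · rintro ⟨⟨⟨u, p⟩, hu⟩, h1, h2, h3⟩
    exact ⟨u, ⟨p, h1, hu⟩, h2, h3⟩
  · rintro ⟨u, ⟨p, hp, hu⟩, h2, h3⟩
    exact ⟨⟨(u, p), hu⟩, hp, h2, h3⟩

theorem mem_EN' (h : Basic X G) {HE : KE → Set P} {δ : KE}
    (hδ : (Sum.inl (kN P δ) : Obj P) ∈ X) :
    val X G (kN P δ) ∈ val X G (EN HE) ↔ ∃ p ∈ G, p ∈ HE δ := by
  rw [mem_EN]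
  constructor
  · rintro ⟨v, h1, h2, h3⟩
    rwa [vk_inj h h2 hδ h3] at h1
  · intro h1
    exact ⟨δ, h1, hδ, rfl⟩

theorem mem_LN (h : Basic X G) (hc : Clos X) {HL : KE → KE → Set P} {a b : ZFSet.{0}} :
    pair a b ∈ val X G (LN HL) ↔ ∃ δ ξ : KE, (∃ p ∈ G, p ∈ HL δ ξ) ∧
      (Sum.inl (kN P δ) : Obj P) ∈ X ∧ (Sum.inl (kN P ξ) : Obj P) ∈ X ∧
      val X G (kN P δ) = a ∧ val X G (kN P ξ) = b := by
  rw [mem_val]
  constructor
  · rintro ⟨⟨⟨⟨u, v⟩, p⟩, hu⟩, h1, h2, h3⟩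
    change (Sum.inl (pairN (kN P u) (kN P v)) : Obj P) ∈ X at h2
    change val X G (pairN (kN P u) (kN P v)) = _ at h3
    have e1 := hc.fst _ _ h2
    have e2 := hc.snd _ _ h2
    rw [val_pairN h.filt hc e1 e2] at h3
    obtain ⟨h4, h5⟩ := ZFSet.pair_injective h3
    exact ⟨u, v, ⟨p, h1, hu⟩, e1, e2, h4, h5⟩
  · rintro ⟨u, v, ⟨p, hp, hu⟩, h1, h2, rfl, rfl⟩
    exact ⟨⟨((u, v), p), hu⟩, hp, hc.pair h1 h2, val_pairN h.filt hc h1 h2⟩

theorem mem_LN' (h : Basic X G) (hc : Clos X) {HL : KE → KE → Set P} {δ ξ : KE}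
    (hδ : (Sum.inl (kN P δ) : Obj P) ∈ X) (hξ : (Sum.inl (kN P ξ) : Obj P) ∈ X) :
    pair (val X G (kN P δ)) (val X G (kN P ξ)) ∈ val X G (LN HL) ↔ ∃ p ∈ G, p ∈ HL δ ξ := by
  rw [mem_LN h hc]
  constructor
  · rintro ⟨u, v, h1, h2, h3, h4, h5⟩
    rwa [vk_inj h h2 hδ h4, vk_inj h h3 hξ h5] at h1
  · intro h1
    exact ⟨δ, ξ, h1, hδ, hξ, rfl, rfl⟩

theorem mem_TN (h : Basic X G) (hc : Clos X) {HT : KE → KE → KE → Set P} {a b c : ZFSet.{0}} :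
    pair a (pair b c) ∈ val X G (TN HT) ↔ ∃ α δ ξ : KE, (∃ p ∈ G, p ∈ HT α δ ξ) ∧ δ < α ∧
      (Sum.inl (kN P α) : Obj P) ∈ X ∧ (Sum.inl (kN P δ) : Obj P) ∈ X ∧
      (Sum.inl (kN P ξ) : Obj P) ∈ X ∧ val X G (kN P α) = a ∧
      val X G (kN P δ) = b ∧ val X G (kN P ξ) = c := by
  rw [mem_val]
  constructor
  · rintro ⟨⟨⟨⟨t, u, v⟩, p⟩, hu, hlt⟩, h1, h2, h3⟩
    change (Sum.inl (pairN (kN P t) (pairN (kN P u) (kN P v))) : Obj P) ∈ X at h2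
    change val X G (pairN (kN P t) (pairN (kN P u) (kN P v))) = _ at h3
    have e0 := hc.fst _ _ h2
    have e12 := hc.snd _ _ h2
    have e1 := hc.fst _ _ e12
    have e2 := hc.snd _ _ e12
    rw [val_pairN h.filt hc e0 e12, val_pairN h.filt hc e1 e2] at h3
    obtain ⟨h4, h5⟩ := ZFSet.pair_injective h3
    obtain ⟨h5, h6⟩ := ZFSet.pair_injective h5
    exact ⟨t, u, v, ⟨p, h1, hu⟩, hlt, e0, e1, e2, h4, h5, h6⟩
  · rintro ⟨t, u, v, ⟨p, hp, hu⟩, hlt, h0, h1, h2, rfl, rfl, rfl⟩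
    refine ⟨⟨((t, u, v), p), hu, hlt⟩, hp, hc.pair h0 (hc.pair h1 h2), ?_⟩
    change val X G (pairN (kN P t) (pairN (kN P u) (kN P v))) = _
    rw [val_pairN h.filt hc h0 (hc.pair h1 h2), val_pairN h.filt hc h1 h2]

theorem mem_TN' (h : Basic X G) (hc : Clos X) {HT : KE → KE → KE → Set P} {α δ ξ : KE}
    (hα : (Sum.inl (kN P α) : Obj P) ∈ X)
    (hδ : (Sum.inl (kN P δ) : Obj P) ∈ X) (hξ : (Sum.inl (kN P ξ) : Obj P) ∈ X) :
    pair (val X G (kN P α)) (pair (val X G (kN P δ)) (val X G (kN P ξ))) ∈ val X G (TN HT) ↔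
      (∃ p ∈ G, p ∈ HT α δ ξ) ∧ δ < α := by
  rw [mem_TN h hc]
  constructor
  · rintro ⟨t, u, v, h1, h1', h2, h3, h4, h5, h6, h7⟩
    rw [vk_inj h h2 hα h5, vk_inj h h3 hδ h6] at h1'
    rw [vk_inj h h2 hα h5, vk_inj h h3 hδ h6, vk_inj h h4 hξ h7] at h1
    exact ⟨h1, h1'⟩
  · rintro ⟨h1, h2⟩
    exact ⟨α, δ, ξ, h1, h2, hα, hδ, hξ, rfl, rfl, rfl⟩

theorem val_natN (h : IsFilt X G) (hc : Clos X) (n : ℕ) : val X G (natN P n) = nat n :=
  val_nat h hc n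

theorem val_om (h : IsFilt X G) (hc : Clos X) : val X G (ordN P ω) = om := val_omega h hc

theorem mem_om {z : ZFSet.{0}} : z ∈ om ↔ ∃ n : ℕ, z = nat n := by
  rw [om, Ordinal.mem_toZFSet_iff]
  constructor
  · rintro ⟨b, hb, rfl⟩
    obtain ⟨n, rfl⟩ := lt_omega0.1 hb
    exact ⟨n, rfl⟩
  · rintro ⟨n, rfl⟩
    exact ⟨n, natCast_lt_omega0 n, rfl⟩

/-- a subset of `ω` in the model is countable there -/
theorem ctb_sub_om (h : Basic X G) (hc : Clos X)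
    (hD : ∀ x : Nm P, (Sum.inl x : Obj P) ∈ X → (Sum.inl (diagN x) : Obj P) ∈ X)
    {z : ZFSet.{0}} (hz : z ∈ Mod X G) (hzo : z ⊆ om) : Ctb (Mod X G) z := by
  obtain ⟨x, hx, rfl⟩ := hz
  have key : ∀ w, w ∈ val X G (diagN x) ↔ ∃ v ∈ val X G x, w = pair v v := by
    intro w
    rw [mem_val]
    constructor
    · rintro ⟨i, h1, h2, h3⟩
      change (Sum.inl (pairN (x.fn i) (x.fn i)) : Obj P) ∈ X at h2
      change val X G (pairN (x.fn i) (x.fn i)) = w at h3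
      have e1 := hc.fst _ _ h2
      rw [val_pairN h.filt hc e1 e1] at h3
      exact ⟨val X G (x.fn i), mem_val.2 ⟨i, h1, e1, rfl⟩, h3.symm⟩
    · rintro ⟨v, hv, rfl⟩
      obtain ⟨i, h1, h2, rfl⟩ := mem_val.1 hv
      exact ⟨i, h1, hc.pair h2 h2, val_pairN h.filt hc h2 h2⟩
  refine ⟨_, mem_Mod (hD x hx), ?_, ?_⟩
  · intro a b c hab hac
    obtain ⟨v, -, hv⟩ := (key _).1 hab
    obtain ⟨w, -, hw⟩ := (key _).1 hac
    obtain ⟨h1, h2⟩ := ZFSet.pair_injective hv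
    obtain ⟨h3, h4⟩ := ZFSet.pair_injective hw
    rw [h2, h4, ← h1, ← h3]
  · intro y hy
    exact ⟨y, hzo hy, (key _).2 ⟨y, hy, rfl⟩⟩

end

/-- the possible values are bounded -/
theorem exists_bnd (hcc : CC P (Order.succ 𝔠)) {g : Nm P} {p : P}
    (hf : ∀ q ≤ p, ∀ a b c, FMem (pairN a b) g q → FMem (pairN a c) g q → FEq b c q) :
    ∃ α, Bnd g p α := by
  classical
  let V : Set ℕ → Set KE := fun S => {ξ | ∃ q ≤ p, FMem (pairN (cN (natN P) S) (kN P ξ)) g q}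
  have hV : ∀ S, #(V S) ≤ 𝔠 := by
    intro S
    have hch : ∀ ξ : V S, ∃ q ≤ p, FMem (pairN (cN (natN P) S) (kN P ξ.1)) g q := fun ξ => ξ.2
    choose q hq hq' using hch
    have hinc : ∀ ξ η : V S, ξ ≠ η → ¬ ∃ r, r ≤ q ξ ∧ r ≤ q η := by
      rintro ξ η hne ⟨r, h1, h2⟩
      apply hne
      apply Subtype.ext
      exact kN_inj (hf r (h1.trans (hq ξ)) _ _ _ ((hq' ξ).mono h1) ((hq' η).mono h2))
    have hinj : Function.Injective q := by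
      intro ξ η he
      by_contra hne
      exact hinc ξ η hne ⟨q ξ, le_rfl, he.le⟩
    have h1 : #(Set.range q) < Order.succ 𝔠 := by
      apply hcc
      rintro _ ⟨ξ, rfl⟩ _ ⟨η, rfl⟩ hne
      exact hinc ξ η (fun he => hne (by rw [he]))
    rw [mk_range_eq q hinj] at h1
    exact Order.lt_succ_iff.1 h1
  have hU : #(⋃ S, V S : Set KE) ≤ 𝔠 := by
    refine (mk_iUnion_le_sum_mk).trans ?_
    refine (sum_le_mk_mul_iSup _).trans ?_
    have h1 : #(Set ℕ) ≤ 𝔠 := by rw [mk_set, mk_nat]; exact two_power_aleph0.le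
    have h2 : (⨆ S, #(V S)) ≤ 𝔠 := ciSup_le' hV
    exact (mul_le_mul' h1 h2).trans continuum_mul_self.le
  obtain ⟨α, hα⟩ := exists_bound reg_succ (B := (⋃ S, V S : Set KE)) (Order.lt_succ_iff.2 hU)
    (fun x => x.1)
  refine ⟨α, ?_⟩
  intro S ξ q hq h
  exact hα ⟨ξ, Set.mem_iUnion.2 ⟨S, q, hq, h⟩⟩

/-- **Transfer.** -/
theorem transferE (hσ : SigmaClosed P) (hcc : CC P (Order.succ 𝔠))
    {HE : KE → Set P} {HL : KE → KE → Set P} {HT : KE → KE → KE → Set P} (hF : LadF HE HL HT) :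
    ∃ N : Set ZFSet.{0}, N.Countable ∧ IsZFC N ∧ ∃ κ E L T, LadM N κ E L T := by
  obtain ⟨X, G, hX, -, hb, hc, hR, hO⟩ := exists_good (RTr HE HL HT) (OTr HE HL HT)
    (OTr_fun HE HL HT) (⊤ : P)
  have hi : CI X := fun k => hO (0, k)
  have hRN := fun k => hR (0, k)
  have hf := hb.filt
  have hκX : (Sum.inl (ordN P (Order.succ 𝔠 : Cardinal.{0}).ord) : Obj P) ∈ X :=
    hO (1, 0) [] _ l0X ⟨rfl, rfl⟩
  have hEX : (Sum.inl (EN HE) : Obj P) ∈ X := hO (1, 1) [] _ l0X ⟨rfl, rfl⟩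
  have hLX : (Sum.inl (LN HL) : Obj P) ∈ X := hO (1, 2) [] _ l0X ⟨rfl, rfl⟩
  have hTX : (Sum.inl (TN HT) : Obj P) ∈ X := hO (1, 3) [] _ l0X ⟨rfl, rfl⟩
  have hqX : (Sum.inl (qN P) : Obj P) ∈ X := hO (1, 4) [] _ l0X ⟨rfl, rfl⟩
  have hDX : ∀ x : Nm P, (Sum.inl x : Obj P) ∈ X → (Sum.inl (diagN x) : Obj P) ∈ X :=
    fun x hx => hO (2, 0) _ _ (l1X hx) ⟨x, rfl, rfl⟩
  have hnX : ∀ n, (Sum.inl (natN P n) : Obj P) ∈ X := natX hc
  have hlim : ∀ ξ : KE, (Sum.inl (kN P ξ) : Obj P) ∈ X →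
      ∃ η : KE, ξ < η ∧ (Sum.inl (kN P η) : Obj P) ∈ X := by
    intro ξ hξ
    have h1 : odk ξ + 1 < (Order.succ 𝔠 : Cardinal.{0}).ord := by
      have h2 : Order.IsSuccLimit (Order.succ 𝔠 : Cardinal.{0}).ord :=
        isSuccLimit_ord (aleph0_le_continuum.trans (Order.le_succ _))
      exact h2.add_one_lt (odk_lt ξ)
    obtain ⟨η, hη⟩ := exists_odk h1
    refine ⟨η, odk_lt_odk.1 (by rw [hη]; exact lt_add_one _), ?_⟩
    rw [kN, hη]
    exact hc.succ _ hξ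
  refine ⟨Mod X G, Mod_countable hX, Mod.isZFC hb hc,
    val X G (ordN P (Order.succ 𝔠 : Cardinal.{0}).ord), val X G (EN HE),
    val X G (LN HL), val X G (TN HT), ?_⟩
  refine
    { κN := mem_Mod hκX
      EN := mem_Mod hEX
      LN := mem_Mod hLX
      TN := mem_Mod hTX
      ord := val_ordN_isOrdinal hf
      lim := ?_
      Eκ := ?_
      L1 := ?_
      L2 := ?_
      T1 := ?_
      T2 := ?_
      T3 := ?_
      bd := ?_
      nf := ?_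
      rat := ?_ }
  · intro α hα
    obtain ⟨ξ, hξ, rfl⟩ := (mem_kap hf).1 hα
    obtain ⟨η, h1, h2⟩ := hlim ξ hξ
    exact ⟨_, (mem_kap hf).2 ⟨η, h2, rfl⟩, (vk_mem hb hξ h2).2 h1⟩
  · intro z hz
    obtain ⟨δ, -, h1, rfl⟩ := mem_EN.1 hz
    exact (mem_kap hf).2 ⟨δ, h1, rfl⟩
  · intro a b hab
    obtain ⟨δ, ξ, ⟨p, hp, hpL⟩, h1, h2, rfl, rfl⟩ := (mem_LN hb hc).1 hab
    obtain ⟨h3, h4⟩ := hF.L1 δ ξ p hpL
    exact ⟨(mem_EN' hb h1).2 ⟨p, hp, h3⟩, (vk_mem hb h2 h1).2 h4⟩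
  · intro a ha b hb'
    obtain ⟨δ, ⟨p, hp, hpE⟩, hδ, rfl⟩ := mem_EN.1 ha
    obtain ⟨ζ, hζδ, hζ, rfl⟩ := mem_vk hf hb'
    obtain ⟨q, hq, y, hy, δ', ζ', F, he, hFf, hFF⟩ := gen_yes hf (hR (1, 0))
      (l := [Sum.inl (kN P δ), Sum.inl (kN P ζ)]) (lcX hδ (l1X hζ)) hp (by
        intro q hq
        obtain ⟨r, hr, F, hFf, hFF⟩ := hF.L2 δ q ((hF.regE δ).down p hpE q hq) ζ hζδ
        exact ⟨r, hr, Sum.inl (kN P δ), δ, ζ, F, rfl, hFf, hFF⟩)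
    simp only [List.cons.injEq, Sum.inl.injEq, and_true] at he
    obtain ⟨-, e1, e2⟩ := he
    have e1' := kN_inj' e1
    have e2' := kN_inj' e2
    subst e1'
    subst e2'
    refine (hFf.image (fun ξ => val X G (kN P ξ))).subset ?_
    rintro c ⟨hc1, hc2⟩
    obtain ⟨u, v, ⟨r, hr, hrL⟩, h1, h2, h3, rfl⟩ := (mem_LN hb hc).1 hc1
    have h4 := vk_inj hb h1 hδ h3
    subst h4
    obtain ⟨s, hs, hs1, hs2⟩ := hf.compat hq hr
    exact ⟨v, hFF v ((vk_mem hb h2 hζ).1 hc2) s hs1 ((hF.regL _ _).down r hrL s hs2), rfl⟩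
  · intro a b c habc
    obtain ⟨α, δ, ξ, ⟨p, hp, hpT⟩, -, h1, h2, h3, rfl, rfl, rfl⟩ := (mem_TN hb hc).1 habc
    exact (mem_LN' hb hc h2 h3).2 ⟨p, hp, hF.T1 α δ ξ p hpT⟩
  · intro a ha b hb1 hb2
    obtain ⟨α, hα, rfl⟩ := (mem_kap hf).1 ha
    obtain ⟨δ, ⟨p, hp, hpE⟩, hδ, rfl⟩ := mem_EN.1 hb1
    have hδα := (vk_mem hb hδ hα).1 hb2
    obtain ⟨q, hq, y, hy, α', δ', F, he, hFf, hFF⟩ := gen_yes hf (hR (1, 1))
      (l := [Sum.inl (kN P α), Sum.inl (kN P δ)]) (lcX hα (l1X hδ)) hp (by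
        intro q hq
        obtain ⟨r, hr, F, hFf, hFF⟩ := hF.T2 α δ hδα q ((hF.regE δ).down p hpE q hq)
        exact ⟨r, hr, Sum.inl (kN P δ), α, δ, F, rfl, hFf, hFF⟩)
    simp only [List.cons.injEq, Sum.inl.injEq, and_true] at he
    obtain ⟨-, e1, e2⟩ := he
    have e1' := kN_inj' e1
    have e2' := kN_inj' e2
    subst e1'
    subst e2'
    refine (hFf.image (fun ξ => val X G (kN P ξ))).subset ?_
    rintro c ⟨hc1, hc2⟩
    obtain ⟨u, v, ⟨r, hr, hrL⟩, h1, h2, h3, rfl⟩ := (mem_LN hb hc).1 hc1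
    have h4 := vk_inj hb h1 hδ h3
    subst h4
    refine ⟨v, ?_, rfl⟩
    by_contra hvF
    obtain ⟨s, hs, hs1, hs2⟩ := hf.compat hq hr
    exact hc2 ((mem_TN' hb hc hα h1 h2).2
      ⟨⟨s, hs, hFF v hvF s hs1 ((hF.regL _ _).down r hrL s hs2)⟩, hδα⟩)
  · intro a ha b b' c hb1 hb2 h1 h2
    obtain ⟨α, δ, ξ, ⟨p, hp, hpT⟩, hlt, e1, e2, e3, rfl, rfl, rfl⟩ := (mem_TN hb hc).1 h1
    obtain ⟨α', δ', ξ', ⟨p', hp', hpT'⟩, hlt', e1', e2', e3', e4, rfl, e5⟩ :=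
      (mem_TN hb hc).1 h2
    have e6 := vk_inj hb e1' e1 e4
    have e7 := vk_inj hb e3' e3 e5
    subst e6
    subst e7
    obtain ⟨s, hs, hs1, hs2⟩ := hf.compat hp hp'
    rw [hF.T3 _ δ δ' _ hlt hlt' s ((hF.regT _ _ _).down p hpT s hs1)
      ((hF.regT _ _ _).down p' hpT' s hs2)]
  · -- bounded
    rintro P' hP' a haN haκ ⟨f, ⟨g, hg, rfl⟩, hf1, hf2⟩
    obtain ⟨p3, hp3, h3⟩ := gen_no (hRN 3) (l := [Sum.inl g]) (l1X hg) (by
      rintro p hp _ hy ⟨a, b, c, g', he, h1, h2, h3⟩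
      simp only [List.cons.injEq, Sum.inl.injEq, and_true] at he
      obtain ⟨rfl, rfl⟩ := he
      have ha := hc.fst _ _ hy
      have hb1 := hc.fst _ _ (hc.snd _ _ hy)
      have hc' := hc.snd _ _ (hc.snd _ _ hy)
      have e1 := (hb.mem_iff (hc.pair ha hb1) hg).2 ⟨p, hp, h1⟩
      have e2 := (hb.mem_iff (hc.pair ha hc') hg).2 ⟨p, hp, h2⟩
      rw [val_pairN hf hc ha hb1] at e1
      rw [val_pairN hf hc ha hc'] at e2
      obtain ⟨q, hq, h4⟩ := (hb.eq_iff hb1 hc').1 (hf1 _ _ _ e1 e2)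
      obtain ⟨r, hr, h5, h6⟩ := hf.compat hp hq
      exact h3 r h5 (h4.mono h6))
    obtain ⟨p, hp, hp3', hpX⟩ := hf.below hp3
    have hbnd : ∃ α, Bnd g p α := exists_bnd hcc (by
      intro q hq a b c h1 h2
      refine FEq.dense fun s hs => ?_
      by_contra hcon
      push Not at hcon
      exact h3 s (hs.trans (hq.trans hp3')) (Sum.inl (pairN a (pairN b c)))
        ⟨a, b, c, g, rfl, h1.mono hs, h2.mono hs, hcon⟩)
    have hαX : (Sum.inl (kN P hbnd.choose) : Obj P) ∈ X :=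
      hO (2, 1) [Sum.inl g, Sum.inr p] _ (lcX hg (l1X hpX)) ⟨g, p, hbnd, rfl, rfl⟩
    refine ⟨val X G (kN P hbnd.choose), (mem_kap hf).2 ⟨_, hαX, rfl⟩, ?_⟩
    intro y hy
    obtain ⟨ξ, hξ, rfl⟩ := (mem_kap hf).1 (haκ hy)
    obtain ⟨x, hx, hxy⟩ := hf2 _ hy
    obtain ⟨hxN, hxo⟩ := (hP'.2 x).1 hx
    obtain ⟨S, -, hSX, rfl⟩ := TL (natN P) hσ hb hc hRN hxN (ctb_sub_om hb hc hDX hxN hxo) (by
      intro w hw
      obtain ⟨n, rfl⟩ := mem_om.1 (hxo hw)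
      exact ⟨n, hnX n, val_natN hf hc n⟩)
    rw [← val_pairN hf hc hSX hξ] at hxy
    obtain ⟨q, hq, h4⟩ := (hb.mem_iff (hc.pair hSX hξ) hg).1 hxy
    obtain ⟨r, hr, h5, h6⟩ := hf.compat hp hq
    exact (vk_mem hb hξ hαX).2 (hbnd.choose_spec S ξ r h5 (h4.mono h6))
  · -- not free
    rintro ⟨R, ⟨ρ, hρ, rfl⟩, hR1, hR2⟩
    have hval : ∀ (ξ δ : KE) (m : ℕ), (Sum.inl (kN P ξ) : Obj P) ∈ X →
        (Sum.inl (kN P δ) : Obj P) ∈ X →
        (pair (val X G (kN P ξ)) (pair (nat m) (val X G (kN P δ))) ∈ val X G ρ ↔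
          ∃ p ∈ G, FMem (pairN (kN P ξ) (pairN (natN P m) (kN P δ))) ρ p) := by
      intro ξ δ m h1 h2
      rw [← val_natN hf hc m, ← val_pairN hf hc (hnX m) h2,
        ← val_pairN hf hc h1 (hc.pair (hnX m) h2)]
      exact hb.mem_iff (hc.pair h1 (hc.pair (hnX m) h2)) hρ
    obtain ⟨r0, hr0, h0⟩ := gen_no (hR (1, 2)) (l := [Sum.inl ρ]) (l1X hρ) (by
      rintro p hp _ hy ⟨ξ, m, ρ', he, hbad⟩
      simp only [List.cons.injEq, Sum.inl.injEq, and_true] at he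
      obtain ⟨rfl, rfl⟩ := he
      have hξ := hc.fst _ _ hy
      obtain ⟨β', hβ', hβ1⟩ := hR1 _ ((mem_kap hf).2 ⟨ξ, hξ, rfl⟩) m
      obtain ⟨β, hβ, rfl⟩ := (mem_kap hf).1 hβ'
      obtain ⟨q, hq, y, hy1, ξ', m', β'', ρ'', δ, he, hlt, hPsi⟩ := gen_yes hf (hR (1, 3))
        (l := [Sum.inl (kN P ξ), Sum.inl (natN P m), Sum.inl (kN P β), Sum.inl ρ])
        (lcX hξ (lcX (hnX m) (lcX hβ (l1X hρ)))) hp (by
          intro q hq
          obtain ⟨q', hq', δ, hδ, hPsi⟩ := hbad q hq β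
          exact ⟨q', hq', Sum.inl (kN P δ), ξ, m, β, ρ, δ, rfl, hδ, hPsi⟩)
      simp only [List.cons.injEq, Sum.inl.injEq, and_true] at he
      obtain ⟨rfl, e1, e2, e3, rfl⟩ := he
      have e1' := kN_inj' e1
      have e2' := natN_inj' e2
      have e3' := kN_inj' e3
      subst e1'
      subst e2'
      subst e3'
      have h1 := hβ1 _ ((mem_EN' hb hy1).2 ⟨q, hq, hPsi.1⟩)
        ((hval ξ δ m hξ hy1).2 ⟨q, hq, hPsi.2⟩)
      exact absurd ((vk_mem hb hy1 hβ).1 h1) (not_lt.2 hlt.le))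
    obtain ⟨r1, hr1, h1⟩ := gen_no (hR (1, 4)) (l := [Sum.inl ρ]) (l1X hρ) (by
      rintro p hp _ hy ⟨δ, ρ', he, hpE, hbad⟩
      simp only [List.cons.injEq, Sum.inl.injEq, and_true] at he
      obtain ⟨rfl, rfl⟩ := he
      obtain ⟨m, hfin⟩ := hR2 _ ((mem_EN' hb hy).2 ⟨p, hp, hpE⟩)
      have hF2 : {ξ : KE | (Sum.inl (kN P ξ) : Obj P) ∈ X ∧
          pair (val X G (kN P δ)) (val X G (kN P ξ)) ∈ val X G (LN HL) ∧
          pair (val X G (kN P ξ)) (pair (nat m) (val X G (kN P δ))) ∉ val X G ρ}.Finite := by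
        refine Set.Finite.of_finite_image (f := fun ξ => val X G (kN P ξ)) (hfin.subset ?_) ?_
        · rintro _ ⟨ξ, ⟨h1, h2, h3⟩, rfl⟩
          exact ⟨h2, h3⟩
        · rintro ξ ⟨h1, -⟩ η ⟨h2, -⟩ he
          exact vk_inj hb h1 h2 he
      let F : List KE := hF2.toFinset.toList
      have hFm : ∀ ξ, ξ ∈ F ↔ ((Sum.inl (kN P ξ) : Obj P) ∈ X ∧
          pair (val X G (kN P δ)) (val X G (kN P ξ)) ∈ val X G (LN HL) ∧
          pair (val X G (kN P ξ)) (pair (nat m) (val X G (kN P δ))) ∉ val X G ρ) := by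
        intro ξ
        simp only [F, Finset.mem_toList, Set.Finite.mem_toFinset, Set.mem_ofPred_eq]
      obtain ⟨q, hq, y, hy1, ξ, δ', m', ρ'', F', he, hξF, hqL, hno⟩ := gen_yes hf (hR (1, 5))
        (l := Sum.inl (kN P δ) :: Sum.inl (natN P m) :: Sum.inl ρ ::
          F.map (fun x => Sum.inl (kN P x)))
        (lcX hy (lcX (hnX m) (lcX hρ (by
          intro c hcF
          obtain ⟨x, hx, rfl⟩ := List.mem_map.1 hcF
          exact ((hFm x).1 hx).1)))) hp (by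
          intro q hq
          obtain ⟨ξ, hξF, q', hq', hqL, hnP⟩ := hbad q hq m {x | x ∈ F}
            (List.finite_toSet F)
          have h2 : ¬ FMem (pairN (kN P ξ) (pairN (natN P m) (kN P δ))) ρ q' := fun h =>
            hnP ⟨(hF.L1 δ ξ q' hqL).1, h⟩
          have h3 : ∃ q'' ≤ q', ∀ s ≤ q'', ¬ FMem (pairN (kN P ξ) (pairN (natN P m) (kN P δ))) ρ
              s := by
            by_contra hcon
            push Not at hcon
            exact h2 (FMem.dense hcon)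
          obtain ⟨q'', hq'', h4⟩ := h3
          exact ⟨q'', hq''.trans hq', Sum.inl (kN P ξ), ξ, δ, m, ρ, F, rfl, hξF,
            (hF.regL _ _).down q' hqL q'' hq'', h4⟩)
      simp only [List.cons.injEq, Sum.inl.injEq] at he
      obtain ⟨rfl, e1, e2, rfl, e3⟩ := he
      have e1' := kN_inj' e1
      have e2' := natN_inj' e2
      subst e1'
      subst e2'
      have e3' : F = F' := by
        refine List.map_injective_iff.2 ?_ e3
        intro a b hab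
        simp only [Sum.inl.injEq] at hab
        exact kN_inj' hab
      subst e3'
      apply hξF
      refine (hFm ξ).2 ⟨hy1, (mem_LN' hb hc hy hy1).2 ⟨q, hq, hqL⟩, ?_⟩
      intro hcon
      obtain ⟨s, hs, h5⟩ := (hval ξ δ m hy1 hy).1 hcon
      obtain ⟨t, ht, h6, h7⟩ := hf.compat hq hs
      exact hno t h6 (h5.mono h7))
    obtain ⟨r, hr, hrr0, hrr1⟩ := hf.compat hr0 hr1
    refine hF.nf r (Psi HE ρ) ?_ ?_ ?_
    · rintro p q ξ m δ hqp ⟨h2, h3⟩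
      exact ⟨(hF.regE δ).down p h2 q hqp, h3.mono hqp⟩
    · intro p hp ξ m
      by_contra hcon
      push Not at hcon
      refine h0 p (hp.trans hrr0) (Sum.inl (pairN (kN P ξ) (natN P m))) ⟨ξ, m, ρ, rfl, ?_⟩
      intro q hq β
      obtain ⟨q', hq', δ, h2, h3⟩ := hcon q hq β
      exact ⟨q', hq', δ, h3, h2⟩
    · intro p hp δ hpE
      by_contra hcon
      push Not at hcon
      refine h1 p (hp.trans hrr1) (Sum.inl (kN P δ)) ⟨δ, ρ, rfl, hpE, ?_⟩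
      intro q hq m F hFf
      obtain ⟨ξ, h2, q', h3, h4, h5⟩ := hcon q hq m F hFf
      exact ⟨ξ, h2, q', h3, h4, h5⟩
  · refine ⟨_, mem_Mod hqX, ?_⟩
    intro w
    rw [mem_val]
    have hv : ∀ a b c : ℕ, val X G (pairN (natN P a) (pairN (natN P b) (natN P c))) =
        pair (nat a) (pair (nat b) (nat c)) := by
      intro a b c
      rw [val_pairN hf hc (hnX a) (hc.pair (hnX b) (hnX c)), val_pairN hf hc (hnX b) (hnX c),
        val_natN hf hc, val_natN hf hc, val_natN hf hc]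
    constructor
    · rintro ⟨⟨⟨a, b, c⟩, h1⟩, -, -, h3⟩
      refine ⟨a, b, c, h1, ?_⟩
      rw [← h3]
      exact hv a b c
    · rintro ⟨a, b, c, h1, rfl⟩
      exact ⟨⟨(a, b, c), h1⟩, hf.top, hc.pair (hnX a) (hc.pair (hnX b) (hnX c)), hv a b c⟩

end Pool.Agent.Helper23.EB
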